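import Pool.Agent.Helper52.NF.St

set_option autoImplicit false

/-! Project NF (helper52), MP_dd34a0_co: module S1 (helper90): existence of a minimal path. -/

namespace Pool.Agent.Helper90.NF

open Pool.Agent.Helper52.NF Finset

/-- Module S1. -/
theorem hS1 : StS1 := by
  classical
  intro ε N _ _ α β E J hE hJ ⟨e, he⟩
  have heE := hJ he
  have hes : ({e} : Finset ε) ∈ E.powerset.filter (fun P => ∃ u v, IsP α β P u v) := by
    rw [Finset.mem_filter, Finset.mem_powerset, Finset.singleton_subset_iff]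
    exact ⟨heE, α e, β e, hE e heE, fun x => bd_singleton α β e x⟩
  obtain ⟨P, hP, hmin⟩ := Finset.exists_min_image (E.powerset.filter (fun P => ∃ u v, IsP α β P u v))
    (fun P => wt J P * ((E.card : ℤ) + 1) + (P.card : ℤ)) ⟨_, hes⟩
  rw [Finset.mem_filter, Finset.mem_powerset] at hP
  obtain ⟨hPE, u, v, huv⟩ := hP
  refine ⟨P, u, v, hPE, huv, ?_, ?_⟩
  · have h1 := hmin _ hes
    simp only [wt_singleton_mem he, Finset.card_singleton] at h1
    by_contra hc
    have hc' : 0 ≤ wt J P := by omega
    have hE1 : 1 ≤ E.card := Finset.card_pos.mpr ⟨e, heE⟩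
    have h2 : 0 ≤ wt J P * ((E.card : ℤ) + 1) := by positivity
    push_cast at h1
    have h3 : (1 : ℤ) ≤ (E.card : ℤ) := by exact_mod_cast hE1
    have h4 : (0 : ℤ) ≤ (P.card : ℤ) := by positivity
    linarith
  · intro P' hP' u' v' huv'
    have hP's : P' ∈ E.powerset.filter (fun P => ∃ u v, IsP α β P u v) := by
      rw [Finset.mem_filter, Finset.mem_powerset]
      exact ⟨hP', u', v', huv'⟩
    have h1 := hmin _ hP's
    have h2 : (P'.card : ℤ) ≤ (E.card : ℤ) := by exact_mod_cast Finset.card_le_card hP'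
    have h4 : (0 : ℤ) ≤ (P.card : ℤ) := by positivity
    have h5 : (0 : ℤ) ≤ (E.card : ℤ) := by positivity
    rcases lt_trichotomy (wt J P) (wt J P') with h | h | h
    · exact Or.inl h
    · right
      refine ⟨h, ?_⟩
      rw [h] at h1
      have h6 : (P.card : ℤ) ≤ (P'.card : ℤ) := by linarith
      exact_mod_cast h6
    · exfalso
      have h7 : (wt J P' + 1) * ((E.card : ℤ) + 1) ≤ wt J P * ((E.card : ℤ) + 1) :=
        mul_le_mul_of_nonneg_right (by omega) (by linarith)
      linarith

end Pool.Agent.Helper90.NF
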